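import Pool.Agent.H70.QUAD.Fib
import Pool.Agent.H74.FEK.Lin

/-!
# A covector of the line from samples

`out`: `D` is a random vector. If for `J + 1` samples of `D`, independent given `K`, there is,
except with probability `ε`, a covector `n` with `n l₀ = 1`, `|n l| ≤ M` which is almost orthogonal
to all of them, then there is such a covector, a function of `K`, which is almost orthogonal to `D`
except with probability `c / (J + 2) + ε`. No bound of `D` is used.
`out_line`: the same for tuples of samples of one line.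
-/

set_option autoImplicit false

namespace Pool.QUAD70

open Finset Matrix
open Pool.Agent.H49.Ent Pool.Agent.H32.Dense Pool.STK Pool.SLO
open Pool.BFL (Pb)

variable {c : ℕ}

/-- The covectors. -/
def Cov (l₀ : Fin c) (M : ℝ) (n : Fin c → ℝ) : Prop := n l₀ = 1 ∧ ∀ l, l ≠ l₀ → |n l| ≤ M

theorem Cov.one (l₀ : Fin c) {M : ℝ} (hM : 0 < M) : Cov l₀ M (Pi.single l₀ 1) := by
  refine ⟨Pi.single_eq_same _ _, fun l hl => ?_⟩
  rw [Pi.single_eq_of_ne hl, abs_zero]
  exact hM.le

/-- The lengths of the trivial columns. -/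
noncomputable def tv (l₀ : Fin c) (δ M : ℝ) (l : Fin c) : ℝ := if l = l₀ then δ else δ / M

theorem tv_pos (l₀ : Fin c) {δ M : ℝ} (hδ : 0 < δ) (hM : 0 < M) (l : Fin c) : 0 < tv l₀ δ M l := by
  unfold tv
  split_ifs
  · exact hδ
  · exact div_pos hδ hM

/-- A vector in the box of some of the other vectors is killed with them. -/
theorem dom_le {ι : Type*} (col : ι → Fin c → ℝ) (l₀ : Fin c) {δ M : ℝ} (hδ : 0 < δ) (hM : 0 < M)
    {n : Fin c → ℝ} (hn : Cov l₀ M n) {x : Fin c → ℝ} {σ : Fin c → ι ⊕ Fin c} {t : Fin c → ℝ}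
    (ht : ∀ k, |t k| ≤ 1) (hx : ∀ l, ∑ k, t k * ext col (tv l₀ δ M) (σ k) l = x l)
    (hk : ∀ i, (∃ k, σ k = Sum.inl i) → |n ⬝ᵥ col i| ≤ δ) : |n ⬝ᵥ x| ≤ c * δ := by
  have h1 : ∀ k, |n ⬝ᵥ ext col (tv l₀ δ M) (σ k)| ≤ δ := by
    intro k
    rcases h : σ k with i | l
    · have := hk i ⟨k, h⟩
      unfold ext
      rw [Sum.elim_inl]
      exact this
    · unfold ext
      rw [Sum.elim_inr, dotProduct_single, abs_mul, abs_of_pos (tv_pos l₀ hδ hM l)]
      unfold tv
      by_cases hl : l = l₀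
      · subst hl
        rw [if_pos rfl, hn.1, abs_one, one_mul]
      · rw [if_neg hl]
        calc |n l| * (δ / M) ≤ M * (δ / M) :=
              mul_le_mul_of_nonneg_right (hn.2 l hl) (div_nonneg hδ.le hM.le)
          _ = δ := by field_simp
  have h2 : n ⬝ᵥ x = ∑ k, t k * (n ⬝ᵥ ext col (tv l₀ δ M) (σ k)) := by
    unfold dotProduct
    rw [Finset.sum_congr rfl fun l _ => by rw [← hx l, Finset.mul_sum], Finset.sum_comm]
    refine Finset.sum_congr rfl fun k _ => ?_
    rw [Finset.mul_sum]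
    refine Finset.sum_congr rfl fun l _ => ?_
    ring
  rw [h2]
  calc _ ≤ ∑ k, |t k * (n ⬝ᵥ ext col (tv l₀ δ M) (σ k))| := Finset.abs_sum_le_sum_abs _ _
    _ ≤ ∑ _k : Fin c, δ := by
        refine Finset.sum_le_sum fun k _ => ?_
        rw [abs_mul]
        calc _ ≤ 1 * δ := mul_le_mul (ht k) (h1 k) (abs_nonneg _) zero_le_one
          _ = δ := one_mul δ
    _ = c * δ := by
        rw [Finset.sum_const, Finset.card_univ, Fintype.card_fin, nsmul_eq_mul]

section

variable {W : Type} (D : W → Fin c → ℝ) (l₀ : Fin c) (δ M : ℝ)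

/-- The sample `j` is in a box spanned by the other samples and the trivial columns. -/
def Dm {N : ℕ} (v : Fin N → W) (j : Fin N) : Prop :=
  ∃ (σ : Fin c → Fin N ⊕ Fin c) (t : Fin c → ℝ), (∀ k, σ k ≠ Sum.inl j) ∧ (∀ k, |t k| ≤ 1) ∧
    ∀ l, ∑ k, t k * ext (fun i => D (v i)) (tv l₀ δ M) (σ k) l = D (v j) l

variable {l₀ δ M}

open Classical in
/-- At most `c` samples are not in the box of the others. -/
theorem dm_card (hδ : 0 < δ) (hM : 0 < M) {N : ℕ} (v : Fin N → W) :
    ((Finset.univ.filter fun j => ¬ Dm D l₀ δ M v j).card : ℝ) ≤ c := by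
  obtain ⟨σ, hσ⟩ := fek_ext (fun i => D (v i)) (τ := tv l₀ δ M) fun l => (tv_pos l₀ hδ hM l).ne'
  let f : Fin c → Finset (Fin N) := fun k => Finset.univ.filter fun j => σ k = Sum.inl j
  have h1 : (Finset.univ.filter fun j => ¬ Dm D l₀ δ M v j) ⊆ Finset.univ.biUnion f := by
    intro j hj
    rw [Finset.mem_filter] at hj
    rw [Finset.mem_biUnion]
    by_contra hcon
    push Not at hcon
    obtain ⟨t, ht, hx⟩ := hσ (Sum.inl j)
    refine hj.2 ⟨σ, t, fun k h => ?_, ht, hx⟩
    exact hcon k (Finset.mem_univ k) (Finset.mem_filter.2 ⟨Finset.mem_univ j, h⟩)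
  have h2 : ∀ k ∈ (Finset.univ : Finset (Fin c)), (f k).card ≤ 1 := by
    intro k _
    rw [Finset.card_le_one]
    intro a ha b hb
    rw [Finset.mem_filter] at ha hb
    exact Sum.inl_injective (ha.2.symm.trans hb.2)
  have h3 := (Finset.card_le_card h1).trans Finset.card_biUnion_le
  have h4 := Finset.sum_le_card_nsmul (Finset.univ : Finset (Fin c)) _ 1 h2
  have h5 : (Finset.univ.filter fun j => ¬ Dm D l₀ δ M v j).card ≤ c := by
    refine h3.trans (h4.trans ?_)
    rw [Finset.card_univ, Fintype.card_fin, smul_eq_mul, mul_one]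
  exact_mod_cast h5

theorem dm_perm {N : ℕ} (v : Fin N → W) (π : Equiv.Perm (Fin N)) (j : Fin N) :
    Dm D l₀ δ M (v ∘ π) j ↔ Dm D l₀ δ M v (π j) := by
  constructor
  · rintro ⟨σ, t, h1, h2, h3⟩
    refine ⟨fun k => Sum.map π id (σ k), t, fun k h => h1 k ?_, h2, fun l => ?_⟩
    · replace h : Sum.map π id (σ k) = Sum.inl (π j) := h
      generalize σ k = y at h ⊢
      rcases y with i | i
      · have h' : (Sum.inl (π i) : Fin N ⊕ Fin c) = Sum.inl (π j) := h
        rw [π.injective (Sum.inl_injective h')]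
      · have h' : (Sum.inr i : Fin N ⊕ Fin c) = Sum.inl (π j) := h
        exact absurd h' (by simp)
    · rw [Function.comp_apply] at h3
      rw [← h3 l]
      refine Finset.sum_congr rfl fun k _ => ?_
      simp only
      generalize σ k = y
      rcases y with i | i <;> rfl
  · rintro ⟨σ, t, h1, h2, h3⟩
    refine ⟨fun k => Sum.map π.symm id (σ k), t, fun k h => h1 k ?_, h2, fun l => ?_⟩
    · replace h : Sum.map π.symm id (σ k) = Sum.inl j := h
      generalize σ k = y at h ⊢
      rcases y with i | i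
      · have h' : (Sum.inl (π.symm i) : Fin N ⊕ Fin c) = Sum.inl j := h
        rw [← Sum.inl_injective h', Equiv.apply_symm_apply]
      · have h' : (Sum.inr i : Fin N ⊕ Fin c) = Sum.inl j := h
        exact absurd h' (by simp)
    · rw [Function.comp_apply, ← h3 l]
      refine Finset.sum_congr rfl fun k _ => ?_
      simp only
      generalize σ k = y
      rcases y with i | i
      · show t k * D (v (π (π.symm i))) l = _
        rw [Equiv.apply_symm_apply]
        rfl
      · rfl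

variable [Fintype W] {p : W → ℝ} {Κ : Type}

/-- The image of an event. -/
theorem pb_marg {A B : Type} [Fintype A] [Fintype B] {q : A → ℝ} {q' : B → ℝ} {φ : A → B}
    (h : Marg q q' φ) (E : B → Prop) : Pb q (fun a => E (φ a)) = Pb q' E := by
  classical
  have h1 : Pb q' E = ∑ b, q' b * (if E b then 1 else 0) := by
    unfold Pb
    exact Finset.sum_congr rfl fun b _ => by split_ifs <;> simp
  have h2 : ∀ b, q' b = ∑ a, if φ a = b then q a else 0 := by
    intro b
    rw [← h b]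
  rw [h1, Finset.sum_congr rfl fun b _ => by rw [h2 b, Finset.sum_mul], Finset.sum_comm]
  unfold Pb
  refine Finset.sum_congr rfl fun a _ => ?_
  rw [Finset.sum_eq_single (φ a)]
  · rw [if_pos rfl]
    split_ifs <;> simp
  · intro b _ hb
    rw [if_neg (Ne.symm hb), zero_mul]
  · intro h0
    exact absurd (Finset.mem_univ _) h0

/-- **Exchangeability**: the sample `0` is in the box of the others except with probability
`c / N`. -/
theorem dm_prob (hp : IsLaw p) (K : W → Κ) (hδ : 0 < δ) (hM : 0 < M) (J : ℕ) :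
    Pb (tup p K J) (fun v => ¬ Dm D l₀ δ M v 0) ≤ c / (J + 1) := by
  classical
  have h1 : ∀ j : Fin (J + 1), Pb (tup p K J) (fun v => ¬ Dm D l₀ δ M v j) =
      Pb (tup p K J) (fun v => ¬ Dm D l₀ δ M v 0) := by
    intro j
    rw [← pb_marg (tup_perm hp.1 K (N := J) (Equiv.swap 0 j)) (fun v => ¬ Dm D l₀ δ M v 0)]
    congr 1
    funext v
    have h4 := dm_perm (l₀ := l₀) (δ := δ) (M := M) D v (Equiv.swap 0 j) 0
    rw [Equiv.swap_apply_left] at h4
    exact propext (not_congr h4.symm)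
  have h2 : ∑ j : Fin (J + 1), Pb (tup p K J) (fun v => ¬ Dm D l₀ δ M v j) ≤ c := by
    unfold Pb
    rw [Finset.sum_comm]
    refine (Finset.sum_le_sum (g := fun v => (c : ℝ) * tup p K J v) fun v _ => ?_).trans ?_
    · have h3 := mul_le_mul_of_nonneg_right (dm_card (l₀ := l₀) D hδ hM v)
        (tup_nonneg hp.1 K J v)
      rw [← nsmul_eq_mul, ← Finset.sum_const, Finset.sum_filter] at h3
      refine le_trans (le_of_eq ?_) h3
      exact Finset.sum_congr rfl fun j _ => by split_ifs <;> rfl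
    rw [← Finset.mul_sum, (tup_isLaw hp K J).2, mul_one]
  rw [Finset.sum_congr rfl fun j _ => h1 j, Finset.sum_const, Finset.card_univ, Fintype.card_fin,
    nsmul_eq_mul] at h2
  rw [le_div_iff₀ (by positivity)]
  push_cast at h2
  linarith

end

open Classical in
/-- **A covector, function of `K`.** -/
theorem out {W Κ : Type} [Fintype W] {p : W → ℝ} (hp : IsLaw p) (K : W → Κ) (l₀ : Fin c)
    (D : W → Fin c → ℝ) {δ M ε : ℝ} (hδ : 0 < δ) (hM : 0 < M) (J : ℕ)
    (h : Pb (tup p K J) (fun v => ∀ n : Fin c → ℝ, Cov l₀ M n → ∃ i, δ < |n ⬝ᵥ D (v i)|) ≤ ε) :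
    ∃ n : Κ → Fin c → ℝ, (∀ z, Cov l₀ M (n z)) ∧
      Pb p (fun w => c * δ < |n (K w) ⬝ᵥ D w|) ≤ c / (J + 2) + ε := by
  have hp0 : ∀ ω, 0 ≤ p ω := hp.1
  -- the covector of a tuple
  have hch : ∀ v : Fin (J + 1) → W, ∃ n : Fin c → ℝ, Cov l₀ M n ∧
      ((∃ n' : Fin c → ℝ, Cov l₀ M n' ∧ ∀ i, |n' ⬝ᵥ D (v i)| ≤ δ) →
        ∀ i, |n ⬝ᵥ D (v i)| ≤ δ) := by
    intro v
    by_cases h1 : ∃ n' : Fin c → ℝ, Cov l₀ M n' ∧ ∀ i, |n' ⬝ᵥ D (v i)| ≤ δ
    · obtain ⟨n', h2, h3⟩ := h1
      exact ⟨n', h2, fun _ => h3⟩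
    · exact ⟨Pi.single l₀ 1, Cov.one l₀ hM, fun h2 => absurd h2 h1⟩
  choose nv hnv1 hnv2 using hch
  -- the probability for a tuple and a further sample
  set F : W → (Fin (J + 1) → W) → ℝ := fun w v =>
    if (c : ℝ) * δ < |nv v ⬝ᵥ D w| then 1 else 0 with hF
  have hF0 : ∀ w v, 0 ≤ F w v := by
    intro w v
    simp only [hF]
    split_ifs <;> norm_num
  have hmain : ∑ v : Fin (J + 2) → W, tup p K (J + 1) v * F (v 0) (fun i => v i.succ) ≤
      c / (J + 2) + ε := by
    have h1 := dm_prob (l₀ := l₀) (M := M) D hp K hδ hM (J + 1)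
    have h2 : Pb (tup p K (J + 1)) (fun v => ∀ n : Fin c → ℝ, Cov l₀ M n →
        ∃ i : Fin (J + 1), δ < |n ⬝ᵥ D (v i.succ)|) ≤ ε := by
      refine le_trans (le_of_eq ?_) h
      exact pb_marg (tup_sub hp0 K (M := J) (N := J + 1) Fin.succ (Fin.succ_injective _))
        (fun v => ∀ n : Fin c → ℝ, Cov l₀ M n → ∃ i, δ < |n ⬝ᵥ D (v i)|)
    have h3 : ∀ v : Fin (J + 2) → W, tup p K (J + 1) v * F (v 0) (fun i => v i.succ) ≤
        (if ¬ Dm D l₀ δ M v 0 then tup p K (J + 1) v else 0) +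
          (if ∀ n : Fin c → ℝ, Cov l₀ M n → ∃ i : Fin (J + 1), δ < |n ⬝ᵥ D (v i.succ)| then
            tup p K (J + 1) v else 0) := by
      intro v
      have h0 := tup_nonneg hp0 K (J + 1) v
      simp only [hF]
      by_cases h4 : (c : ℝ) * δ < |nv (fun i => v i.succ) ⬝ᵥ D (v 0)|
      swap
      · rw [if_neg h4, mul_zero]
        split_ifs <;> linarith
      rw [if_pos h4, mul_one]
      by_cases h5 : Dm D l₀ δ M v 0
      swap
      · rw [if_pos h5]
        split_ifs <;> linarith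
      by_cases h6 : ∀ n : Fin c → ℝ, Cov l₀ M n → ∃ i : Fin (J + 1), δ < |n ⬝ᵥ D (v i.succ)|
      · rw [if_pos h6]
        split_ifs <;> linarith
      exfalso
      push Not at h6
      obtain ⟨n', h7, h8⟩ := h6
      have h9 := hnv2 (fun i => v i.succ) ⟨n', h7, h8⟩
      obtain ⟨σ, t, g1, g2, g3⟩ := h5
      have h10 := dom_le (fun i => D (v i)) l₀ hδ hM (hnv1 fun i => v i.succ) g2 g3 (by
        rintro i ⟨k, hk⟩
        have hi : i ≠ 0 := by
          rintro rfl
          exact g1 k hk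
        obtain ⟨i', rfl⟩ := Fin.exists_succ_eq_of_ne_zero hi
        exact h9 i')
      linarith
    refine (Finset.sum_le_sum fun v _ => h3 v).trans ?_
    rw [Finset.sum_add_distrib]
    refine add_le_add ?_ ?_
    · refine le_trans (le_of_eq ?_) (h1.trans (le_of_eq ?_))
      · unfold Pb
        refine Finset.sum_congr rfl fun v _ => ?_
        by_cases h4 : Dm D l₀ δ M v 0
        · rw [if_neg (not_not.2 h4), if_neg (not_not.2 h4)]
        · rw [if_pos h4, if_pos h4]
      · push_cast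
        ring
    · refine le_trans (le_of_eq ?_) h2
      unfold Pb
      refine Finset.sum_congr rfl fun v _ => ?_
      by_cases h4 : ∀ n : Fin c → ℝ, Cov l₀ M n → ∃ i : Fin (J + 1), δ < |n ⬝ᵥ D (v i.succ)|
      · rw [if_pos h4]
      · rw [if_neg h4]
  -- the best tuple
  have hne : Nonempty W := by
    by_contra h0
    rw [not_nonempty_iff] at h0
    have := hp.2
    simp at this
  have hex : ∀ z : Κ, ∃ v₀ : Fin (J + 1) → W, ∀ v : Fin (J + 1) → W,
      ∑ w, cond p K z w * F w v₀ ≤ ∑ w, cond p K z w * F w v := by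
    intro z
    exact Finite.exists_min fun v : Fin (J + 1) → W => ∑ w, cond p K z w * F w v
  choose vz hvz using hex
  refine ⟨fun z => nv (vz z), fun z => hnv1 _, le_trans ?_ hmain⟩
  have e1 : Pb p (fun w => (c : ℝ) * δ < |nv (vz (K w)) ⬝ᵥ D w|) = ∑ w, p w * F w (vz (K w)) := by
    unfold Pb
    refine Finset.sum_congr rfl fun w _ => ?_
    simp only [hF]
    split_ifs <;> simp
  rw [e1, Pool.FEK74.mix hp0 K]
  have e2 : ∑ v : Fin (J + 2) → W, tup p K (J + 1) v * F (v 0) (fun i => v i.succ) =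
      ∑ z ∈ Finset.univ.image K, law p K z * ∑ w, ∑ v : Fin (J + 1) → W,
        cond p K z w * (∏ j, cond p K z (v j)) * F w v := by
    rw [Finset.sum_congr rfl fun v _ => by rw [tup_mix hp0 K (J + 1) v, Finset.sum_mul],
      Finset.sum_comm]
    refine Finset.sum_congr rfl fun z _ => ?_
    rw [Finset.mul_sum]
    have e3 : ∀ G : W → (Fin (J + 1) → W) → ℝ,
        ∑ v : Fin (J + 2) → W, G (v 0) (fun i => v i.succ) = ∑ w, ∑ v, G w v := by
      intro G
      rw [Fintype.sum_equiv (Fin.consEquiv fun _ : Fin (J + 2) => W).symm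
        (fun v : Fin (J + 2) → W => G (v 0) (fun i => v i.succ))
        (fun x : W × (Fin (J + 1) → W) => G x.1 x.2) (fun v => rfl), Fintype.sum_prod_type]
    have e6 : ∑ w, law p K z * ∑ v : Fin (J + 1) → W,
        cond p K z w * (∏ j, cond p K z (v j)) * F w v =
        ∑ w, ∑ v : Fin (J + 1) → W, law p K z *
          (cond p K z w * (∏ j, cond p K z (v j)) * F w v) :=
      Finset.sum_congr rfl fun w _ => Finset.mul_sum _ _ _
    rw [e6, ← e3 fun w v => law p K z * (cond p K z w * (∏ j, cond p K z (v j)) * F w v)]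
    refine Finset.sum_congr rfl fun v _ => ?_
    rw [Fin.prod_univ_succ]
    ring
  rw [e2]
  refine Finset.sum_le_sum fun z hz => ?_
  refine mul_le_mul_of_nonneg_left ?_ (law_nonneg hp0 K z)
  rcases eq_or_ne (law p K z) 0 with h0 | h0
  · have e3 : ∀ w, cond p K z w = 0 := by
      intro w
      by_contra hcon
      have h1 := (cond_pos_iff hp0 K z w).1
        (lt_of_le_of_ne (cond_nonneg hp0 K z w) (Ne.symm hcon))
      have h2 := law_pos hp0 K h1.1
      rw [h1.2, h0] at h2
      exact lt_irrefl _ h2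
    simp [e3]
  have hs := sum_cond p K h0
  have e4 : ∑ w, cond p K z w * F w (vz (K w)) = ∑ w, cond p K z w * F w (vz z) := by
    refine Finset.sum_congr rfl fun w _ => ?_
    rcases (cond_nonneg hp0 K z w).eq_or_lt with hc | hc
    · rw [← hc, zero_mul, zero_mul]
    · rw [((cond_pos_iff hp0 K z w).1 hc).2]
  rw [e4, Finset.sum_comm]
  have e5 : ∑ v : Fin (J + 1) → W, ∏ j, cond p K z (v j) = 1 := by
    rw [sum_pi_prod fun _ => cond p K z, hs]
    simp
  calc ∑ w, cond p K z w * F w (vz z) =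
      ∑ v : Fin (J + 1) → W, (∏ j, cond p K z (v j)) * ∑ w, cond p K z w * F w (vz z) := by
        rw [← Finset.sum_mul, e5, one_mul]
    _ ≤ ∑ v : Fin (J + 1) → W, (∏ j, cond p K z (v j)) * ∑ w, cond p K z w * F w v := by
        refine Finset.sum_le_sum fun v _ => mul_le_mul_of_nonneg_left (hvz z v) ?_
        exact Finset.prod_nonneg fun j _ => cond_nonneg hp0 K z _
    _ = _ := by
        refine Finset.sum_congr rfl fun v _ => ?_
        rw [Finset.mul_sum]
        refine Finset.sum_congr rfl fun w _ => ?_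
        ring

open Classical in
/-- **The covector of a line**, from defects `D` of `(r + 1)`-tuples of samples of the line: if
except with probability `ε` the defects of all `(r + 1)`-tuples among `N + 1 = (J + 1) (r + 1)`
samples of the line have a common covector, the line has a covector for most `(r + 1)`-tuples. -/
theorem out_line {Ω Λ : Type} [Fintype Ω] {p : Ω → ℝ} (hp : IsLaw p) (L : Ω → Λ) (r : ℕ)
    (l₀ : Fin c) (D : (Fin (r + 1) → Ω) → Fin c → ℝ) {δ M ε : ℝ} (hδ : 0 < δ) (hM : 0 < M)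
    (J N : ℕ) (hN : (J + 1) * (r + 1) = N + 1)
    (h : Pb (tup p L N) (fun v => ∀ n : Fin c → ℝ, Cov l₀ M n →
      ∃ σ : Fin (r + 1) → Fin (N + 1), Function.Injective σ ∧ δ < |n ⬝ᵥ D (v ∘ σ)|) ≤ ε) :
    ∃ n : Λ → Fin c → ℝ, (∀ z, Cov l₀ M (n z)) ∧
      Pb (tup p L r) (fun u => c * δ < |n (L (u 0)) ⬝ᵥ D u|) ≤ c / (J + 2) + ε := by
  refine out (tup_isLaw hp L r) (fun u => L (u 0)) l₀ D hδ hM J (le_trans ?_ h)
  let e : Fin (J + 1) × Fin (r + 1) ≃ Fin (N + 1) := finProdFinEquiv.trans (finCongr hN)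
  rw [Pool.FEK74.tup_nest hp L e]
  unfold Pb
  refine Finset.sum_le_sum fun v _ => ?_
  have h0 := tup_nonneg hp.1 L N v
  by_cases h1 : ∀ n : Fin c → ℝ, Cov l₀ M n →
      ∃ i : Fin (J + 1), δ < |n ⬝ᵥ D (fun i' => v (e (i, i')))|
  · rw [if_pos h1, if_pos]
    intro n hn
    obtain ⟨i, hi⟩ := h1 n hn
    refine ⟨fun i' => e (i, i'), fun x y hxy => ?_, hi⟩
    exact (Prod.ext_iff.1 (e.injective hxy)).2
  · rw [if_neg h1]
    split_ifs
    · exact h0
    · exact le_rfl

end Pool.QUAD70
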