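import Mathlib

/-!
# Fekete columns and the fibre along one direction

`fek`: among finitely many columns which span there are `c` columns such that every column is a
combination of them with coefficients of modulus at most one.
`fib`: if every covector `n` with `n l₀ = 1` and `|n l| ≤ M` sees some column (`α ≤ |n · col i|`),
then `α e_{l₀}` is a combination, with coefficients of modulus at most one, of `c` columns, some of
them perhaps trivial (`τ l e_l`, where `α ≤ M τ l` for `l ≠ l₀`).
No bound of the columns is used.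
-/

set_option autoImplicit false

namespace Pool.QUAD70

open Finset Matrix

variable {c : ℕ}

/-- The matrix of `c` columns. -/
def colM (a : Fin c → Fin c → ℝ) : Matrix (Fin c) (Fin c) ℝ := Matrix.of fun l k => a k l

theorem colM_update (a : Fin c → Fin c → ℝ) (k : Fin c) (x : Fin c → ℝ) :
    (colM a).updateCol k x = colM (Function.update a k x) := by
  ext l j
  rw [Matrix.updateCol_apply]
  unfold colM
  simp only [Matrix.of_apply]
  by_cases h : j = k
  · subst h
    rw [if_pos rfl, Function.update_self]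
  · rw [if_neg h, Function.update_of_ne h]

theorem cramer_eq (a : Fin c → Fin c → ℝ) (k : Fin c) (x : Fin c → ℝ) :
    (colM a).cramer x k = (colM (Function.update a k x)).det := by
  rw [Matrix.cramer_apply, colM_update]

/-- Cramer's rule. -/
theorem sum_cramer (a : Fin c → Fin c → ℝ) (x : Fin c → ℝ) (l : Fin c) :
    ∑ k, (colM a).cramer x k * a k l = (colM a).det * x l := by
  have h := congrFun (Matrix.mulVec_cramer (colM a) x) l
  rw [Pi.smul_apply, smul_eq_mul] at h
  rw [← h]
  unfold Matrix.mulVec dotProduct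
  refine Finset.sum_congr rfl fun k _ => ?_
  show _ = a k l * _
  ring

/-- **Fekete columns**. -/
theorem fek {ι : Type*} [Finite ι] (col : ι → Fin c → ℝ)
    (hs : ∃ σ : Fin c → ι, (colM fun k => col (σ k)).det ≠ 0) :
    ∃ σ : Fin c → ι, (colM fun k => col (σ k)).det ≠ 0 ∧
      (∀ i k, |(colM fun k => col (σ k)).cramer (col i) k| ≤
        |(colM fun k => col (σ k)).det|) ∧
      ∀ i, ∃ t : Fin c → ℝ, (∀ k, |t k| ≤ 1) ∧ ∀ l, ∑ k, t k * col (σ k) l = col i l := by
  classical
  obtain ⟨σ₀, h0⟩ := hs
  have : Nonempty (Fin c → ι) := ⟨σ₀⟩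
  obtain ⟨σ, hσ⟩ := Finite.exists_max fun σ : Fin c → ι => |(colM fun k => col (σ k)).det|
  have hd : (colM fun k => col (σ k)).det ≠ 0 := by
    intro h
    have h1 := hσ σ₀
    simp only [h, abs_zero] at h1
    exact h0 (abs_nonpos_iff.1 h1)
  have hc : ∀ i k, |(colM fun k => col (σ k)).cramer (col i) k| ≤
      |(colM fun k => col (σ k)).det| := by
    intro i k
    rw [cramer_eq]
    have e : Function.update (fun k => col (σ k)) k (col i) =
        fun j => col (Function.update σ k i j) := by
      funext j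
      by_cases h : j = k
      · subst h
        rw [Function.update_self, Function.update_self]
      · rw [Function.update_of_ne h, Function.update_of_ne h]
    rw [e]
    exact hσ _
  refine ⟨σ, hd, hc, fun i => ⟨fun k => (colM fun k => col (σ k)).cramer (col i) k /
    (colM fun k => col (σ k)).det, fun k => ?_, fun l => ?_⟩⟩
  · rw [abs_div]
    exact div_le_one_of_le₀ (hc i k) (abs_nonneg _)
  · have h1 := sum_cramer (fun k => col (σ k)) (col i) l
    have h2 : ∑ k, (colM fun k => col (σ k)).cramer (col i) k /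
        (colM fun k => col (σ k)).det * col (σ k) l =
        (∑ k, (colM fun k => col (σ k)).cramer (col i) k * col (σ k) l) /
          (colM fun k => col (σ k)).det := by
      rw [Finset.sum_div]
      refine Finset.sum_congr rfl fun k _ => ?_
      ring
    rw [h2, h1, mul_div_cancel_left₀ _ hd]

/-- The columns and the trivial ones. -/
def ext {ι : Type*} (col : ι → Fin c → ℝ) (τ : Fin c → ℝ) : ι ⊕ Fin c → Fin c → ℝ :=
  Sum.elim col fun l => Pi.single l (τ l)

theorem ext_span {ι : Type*} (col : ι → Fin c → ℝ) {τ : Fin c → ℝ} (hτ : ∀ l, τ l ≠ 0) :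
    (colM fun k => ext col τ (Sum.inr k)).det ≠ 0 := by
  have h : (colM fun k => ext col τ (Sum.inr k)) = Matrix.diagonal τ := by
    ext l k
    unfold colM ext
    simp only [Matrix.of_apply, Sum.elim_inr]
    by_cases h : l = k
    · subst h
      rw [Pi.single_eq_same, Matrix.diagonal_apply_eq]
    · rw [Pi.single_eq_of_ne h, Matrix.diagonal_apply_ne _ h]
  rw [h, Matrix.det_diagonal]
  exact Finset.prod_ne_zero_iff.2 fun l _ => hτ l

/-- Every column is in the box of the Fekete columns. -/
theorem fek_ext {ι : Type*} [Finite ι] (col : ι → Fin c → ℝ) {τ : Fin c → ℝ}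
    (hτ : ∀ l, τ l ≠ 0) :
    ∃ σ : Fin c → ι ⊕ Fin c, ∀ i, ∃ t : Fin c → ℝ, (∀ k, |t k| ≤ 1) ∧
      ∀ l, ∑ k, t k * ext col τ (σ k) l = ext col τ i l := by
  obtain ⟨σ, -, -, h⟩ := fek (ext col τ) ⟨fun k => Sum.inr k, ext_span col hτ⟩
  exact ⟨σ, h⟩

/-- **The fibre along `e_{l₀}`.** -/
theorem fib {ι : Type*} [Finite ι] (col : ι → Fin c → ℝ) (l₀ : Fin c) {α M : ℝ} {τ : Fin c → ℝ}
    (hα : 0 < α) (hτ : ∀ l, 0 < τ l) (hM : ∀ l, l ≠ l₀ → α ≤ M * τ l)
    (h : ∀ n : Fin c → ℝ, n l₀ = 1 → (∀ l, l ≠ l₀ → |n l| ≤ M) → ∃ i, α ≤ |n ⬝ᵥ col i|) :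
    ∃ (σ : Fin c → ι ⊕ Fin c) (t : Fin c → ℝ), (∀ k, |t k| ≤ 1) ∧
      ∀ l, ∑ k, t k * ext col τ (σ k) l = if l = l₀ then α else 0 := by
  classical
  obtain ⟨σ, hd, hc, -⟩ := fek (ext col τ) ⟨fun k => Sum.inr k, ext_span col fun l => (hτ l).ne'⟩
  set a : Fin c → Fin c → ℝ := fun k => ext col τ (σ k) with ha
  have hd' : 0 < |(colM a).det| := abs_pos.2 hd
  -- the coefficients of `e_{l₀}`
  have hs : ∀ k, α * |(colM a).cramer (Pi.single l₀ 1) k| ≤ |(colM a).det| := by
    intro k
    rcases eq_or_ne ((colM a).cramer (Pi.single l₀ 1) k) 0 with h0 | h0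
    · rw [h0, abs_zero, mul_zero]
      exact abs_nonneg _
    have h0' : 0 < |(colM a).cramer (Pi.single l₀ 1) k| := abs_pos.2 h0
    -- the covector
    set s : ℝ := (colM a).cramer (Pi.single l₀ 1) k with hs
    set n : Fin c → ℝ := fun l => (colM a).cramer (Pi.single l 1) k / s with hn
    have hdot : ∀ x : Fin c → ℝ, n ⬝ᵥ x = (colM a).cramer x k / s := by
      intro x
      have e1 : x = ∑ l, x l • (Pi.single l (1 : ℝ) : Fin c → ℝ) := by
        funext j
        rw [Finset.sum_apply]
        simp [Pi.single_apply]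
      have e2 : (colM a).cramer x k = ∑ l, x l * (colM a).cramer (Pi.single l 1) k := by
        conv_lhs => rw [e1]
        rw [map_sum, Finset.sum_apply]
        refine Finset.sum_congr rfl fun l _ => ?_
        rw [map_smul, Pi.smul_apply, smul_eq_mul]
      rw [e2, Finset.sum_div]
      unfold dotProduct
      refine Finset.sum_congr rfl fun l _ => ?_
      rw [hn]
      ring
    have h1 : n l₀ = 1 := by
      show s / s = 1
      exact div_self h0
    have hle : ∀ i, |n ⬝ᵥ ext col τ i| * |s| ≤ |(colM a).det| := by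
      intro i
      rw [hdot, abs_div, div_mul_cancel₀ _ h0'.ne']
      exact hc i k
    by_cases hb : ∀ l, l ≠ l₀ → |n l| ≤ M
    · obtain ⟨i, hi⟩ := h n h1 hb
      refine le_trans ?_ (hle (Sum.inl i))
      exact mul_le_mul_of_nonneg_right hi h0'.le
    · push Not at hb
      obtain ⟨l, hl, hl2⟩ := hb
      refine le_trans ?_ (hle (Sum.inr l))
      refine mul_le_mul_of_nonneg_right ?_ h0'.le
      have e3 : n ⬝ᵥ ext col τ (Sum.inr l) = n l * τ l := by
        unfold ext
        rw [Sum.elim_inr, dotProduct_single]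
      rw [e3, abs_mul, abs_of_pos (hτ l)]
      exact (hM l hl).trans (mul_le_mul_of_nonneg_right hl2.le (hτ l).le)
  refine ⟨σ, fun k => α * ((colM a).cramer (Pi.single l₀ 1) k / (colM a).det), fun k => ?_,
    fun l => ?_⟩
  · rw [abs_mul, abs_div, abs_of_pos hα, mul_div_assoc']
    exact div_le_one_of_le₀ (hs k) (abs_nonneg _)
  · have h1 := sum_cramer a (Pi.single l₀ 1) l
    have h2 : ∑ k, α * ((colM a).cramer (Pi.single l₀ 1) k / (colM a).det) *
        ext col τ (σ k) l = α * ((∑ k, (colM a).cramer (Pi.single l₀ 1) k * a k l) /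
          (colM a).det) := by
      rw [Finset.sum_div, Finset.mul_sum]
      refine Finset.sum_congr rfl fun k _ => ?_
      show _ = α * ((colM a).cramer (Pi.single l₀ 1) k * ext col τ (σ k) l / (colM a).det)
      ring
    rw [h2, h1, mul_div_cancel_left₀ _ hd, Pi.single_apply]
    split_ifs <;> simp

end Pool.QUAD70
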