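import Pool.Agent.H70.QUAD.Out

/-!
# A covector for families of vectors, in sample form

`out_fam`: `D` is a random family of vectors. If for `J + 1` samples of `D`, independent given `K`,
there is, except with probability `ε`, a covector `n` with `n l₀ = 1`, `|n l| ≤ M` which is almost
orthogonal to all vectors of all of them, then such a covector, a function of the `J + 1` samples,
is almost orthogonal to all vectors of a further sample, except with probability
`c / (J + 2) + ε`. No bound of `D` is used.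
-/

set_option autoImplicit false

namespace Pool.QUAD70

open Finset Matrix
open Pool.Agent.H49.Ent Pool.Agent.H32.Dense Pool.STK Pool.SLO
open Pool.BFL (Pb)

variable {c : ℕ} {W kk : Type} (D : W → kk → Fin c → ℝ) (l₀ : Fin c) (δ M : ℝ)

/-- The vectors of the sample `j` are in boxes spanned by the vectors of the other samples and the
trivial columns. -/
def DmF {N : ℕ} (v : Fin N → W) (j : Fin N) : Prop :=
  ∀ u : kk, ∃ (σ : Fin c → (Fin N × kk) ⊕ Fin c) (t : Fin c → ℝ), (∀ k u', σ k ≠ Sum.inl (j, u')) ∧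
    (∀ k, |t k| ≤ 1) ∧
    ∀ l, ∑ k, t k * ext (fun i : Fin N × kk => D (v i.1) i.2) (tv l₀ δ M) (σ k) l = D (v j) u l

variable {l₀ δ M}

open Classical in
/-- At most `c` samples are not in the boxes of the others. -/
theorem dmF_card [Finite kk] (hδ : 0 < δ) (hM : 0 < M) {N : ℕ} (v : Fin N → W) :
    ((Finset.univ.filter fun j => ¬ DmF D l₀ δ M v j).card : ℝ) ≤ c := by
  obtain ⟨σ, hσ⟩ := fek_ext (fun i : Fin N × kk => D (v i.1) i.2) (τ := tv l₀ δ M)
    fun l => (tv_pos l₀ hδ hM l).ne'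
  let f : Fin c → Finset (Fin N) := fun k =>
    Finset.univ.filter fun j => ∃ u, σ k = Sum.inl (j, u)
  have h1 : (Finset.univ.filter fun j => ¬ DmF D l₀ δ M v j) ⊆ Finset.univ.biUnion f := by
    intro j hj
    rw [Finset.mem_filter] at hj
    rw [Finset.mem_biUnion]
    by_contra hcon
    push Not at hcon
    refine hj.2 fun u => ?_
    obtain ⟨t, ht, hx⟩ := hσ (Sum.inl (j, u))
    refine ⟨σ, t, fun k u' h => ?_, ht, hx⟩
    exact hcon k (Finset.mem_univ k) (Finset.mem_filter.2 ⟨Finset.mem_univ j, u', h⟩)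
  have h2 : ∀ k ∈ (Finset.univ : Finset (Fin c)), (f k).card ≤ 1 := by
    intro k _
    rw [Finset.card_le_one]
    intro a ha b hb
    obtain ⟨u, hu⟩ := (Finset.mem_filter.1 ha).2
    obtain ⟨u', hu'⟩ := (Finset.mem_filter.1 hb).2
    exact (Prod.ext_iff.1 (Sum.inl_injective (hu.symm.trans hu'))).1
  have h3 := (Finset.card_le_card h1).trans Finset.card_biUnion_le
  have h4 := Finset.sum_le_card_nsmul (Finset.univ : Finset (Fin c)) _ 1 h2
  have h5 : (Finset.univ.filter fun j => ¬ DmF D l₀ δ M v j).card ≤ c := by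
    refine h3.trans (h4.trans ?_)
    rw [Finset.card_univ, Fintype.card_fin, smul_eq_mul, mul_one]
  exact_mod_cast h5

theorem dmF_of_perm {N : ℕ} (v : Fin N → W) (π : Equiv.Perm (Fin N)) (j : Fin N)
    (h : DmF D l₀ δ M (v ∘ π) j) : DmF D l₀ δ M v (π j) := by
  intro u
  obtain ⟨σ, t, h1, h2, h3⟩ := h u
  refine ⟨fun k => Sum.map (Prod.map π id) id (σ k), t, fun k u' h => h1 k u' ?_, h2,
    fun l => ?_⟩
  · replace h : Sum.map (Prod.map π id) id (σ k) = Sum.inl (π j, u') := h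
    generalize σ k = y at h ⊢
    rcases y with ⟨i, u''⟩ | i
    · have h' : (Sum.inl (π i, u'') : (Fin N × kk) ⊕ Fin c) = Sum.inl (π j, u') := h
      have h'' := Prod.ext_iff.1 (Sum.inl_injective h')
      rw [π.injective h''.1]
      have h3 : u'' = u' := h''.2
      rw [h3]
    · have h' : (Sum.inr i : (Fin N × kk) ⊕ Fin c) = Sum.inl (π j, u') := h
      exact absurd h' (by simp)
  · rw [Function.comp_apply] at h3
    rw [← h3 l]
    refine Finset.sum_congr rfl fun k _ => ?_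
    simp only
    generalize σ k = y
    rcases y with i | i <;> rfl

theorem dmF_perm {N : ℕ} (v : Fin N → W) (π : Equiv.Perm (Fin N)) (j : Fin N) :
    DmF D l₀ δ M (v ∘ π) j ↔ DmF D l₀ δ M v (π j) := by
  refine ⟨dmF_of_perm D v π j, fun h => ?_⟩
  have h1 := dmF_of_perm (l₀ := l₀) (δ := δ) (M := M) D (v ∘ π) π.symm (π j) (by
    have h2 : (v ∘ π) ∘ π.symm = v := by
      funext x
      simp
    rw [h2]
    exact h)
  rw [Equiv.symm_apply_apply] at h1
  exact h1

variable [Fintype W] {p : W → ℝ} {Κ : Type}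

/-- **Exchangeability**: the sample `0` is in the boxes of the others except with probability
`c / N`. -/
theorem dmF_prob [Finite kk] (hp : IsLaw p) (K : W → Κ) (hδ : 0 < δ) (hM : 0 < M) (J : ℕ) :
    Pb (tup p K J) (fun v => ¬ DmF D l₀ δ M v 0) ≤ c / (J + 1) := by
  classical
  have h1 : ∀ j : Fin (J + 1), Pb (tup p K J) (fun v => ¬ DmF D l₀ δ M v j) =
      Pb (tup p K J) (fun v => ¬ DmF D l₀ δ M v 0) := by
    intro j
    rw [← pb_marg (tup_perm hp.1 K (N := J) (Equiv.swap 0 j)) (fun v => ¬ DmF D l₀ δ M v 0)]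
    congr 1
    funext v
    have h4 := dmF_perm (l₀ := l₀) (δ := δ) (M := M) D v (Equiv.swap 0 j) 0
    rw [Equiv.swap_apply_left] at h4
    exact propext (not_congr h4.symm)
  have h2 : ∑ j : Fin (J + 1), Pb (tup p K J) (fun v => ¬ DmF D l₀ δ M v j) ≤ c := by
    unfold Pb
    rw [Finset.sum_comm]
    refine (Finset.sum_le_sum (g := fun v => (c : ℝ) * tup p K J v) fun v _ => ?_).trans ?_
    · have h3 := mul_le_mul_of_nonneg_right (dmF_card (l₀ := l₀) D hδ hM v)
        (tup_nonneg hp.1 K J v)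
      rw [← nsmul_eq_mul, ← Finset.sum_const, Finset.sum_filter] at h3
      refine le_trans (le_of_eq ?_) h3
      exact Finset.sum_congr rfl fun j _ => by split_ifs <;> rfl
    rw [← Finset.mul_sum, (tup_isLaw hp K J).2, mul_one]
  rw [Finset.sum_congr rfl fun j _ => h1 j, Finset.sum_const, Finset.card_univ, Fintype.card_fin,
    nsmul_eq_mul] at h2
  rw [le_div_iff₀ (by positivity)]
  push_cast at h2
  linarith

/-- **A covector, function of `J + 1` samples.** -/
theorem out_fam [Finite kk] (hp : IsLaw p) (K : W → Κ) (hδ : 0 < δ) (hM : 0 < M) (J : ℕ)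
    {ε : ℝ} (h : Pb (tup p K J) (fun v => ∀ n : Fin c → ℝ, Cov l₀ M n →
      ∃ i u, δ < |n ⬝ᵥ D (v i) u|) ≤ ε) :
    ∃ f : (Fin (J + 1) → kk → Fin c → ℝ) → Fin c → ℝ, (∀ d, Cov l₀ M (f d)) ∧
      Pb (tup p K (J + 1)) (fun v => ∃ u, c * δ < |f (fun i => D (v i.succ)) ⬝ᵥ D (v 0) u|) ≤
        c / (J + 2) + ε := by
  classical
  have hp0 : ∀ ω, 0 ≤ p ω := hp.1
  -- the covector of a tuple
  have hch : ∀ d : Fin (J + 1) → kk → Fin c → ℝ, ∃ n : Fin c → ℝ, Cov l₀ M n ∧
      ((∃ n' : Fin c → ℝ, Cov l₀ M n' ∧ ∀ i u, |n' ⬝ᵥ d i u| ≤ δ) →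
        ∀ i u, |n ⬝ᵥ d i u| ≤ δ) := by
    intro d
    by_cases h1 : ∃ n' : Fin c → ℝ, Cov l₀ M n' ∧ ∀ i u, |n' ⬝ᵥ d i u| ≤ δ
    · obtain ⟨n', h2, h3⟩ := h1
      exact ⟨n', h2, fun _ => h3⟩
    · exact ⟨Pi.single l₀ 1, Cov.one l₀ hM, fun h2 => absurd h2 h1⟩
  choose f hf1 hf2 using hch
  refine ⟨f, hf1, ?_⟩
  have h1 := dmF_prob (l₀ := l₀) (M := M) D hp K hδ hM (J + 1)
  have h2 : Pb (tup p K (J + 1)) (fun v => ∀ n : Fin c → ℝ, Cov l₀ M n →
      ∃ (i : Fin (J + 1)) (u : kk), δ < |n ⬝ᵥ D (v i.succ) u|) ≤ ε := by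
    refine le_trans (le_of_eq ?_) h
    exact pb_marg (tup_sub hp0 K (M := J) (N := J + 1) Fin.succ (Fin.succ_injective _))
      (fun v => ∀ n : Fin c → ℝ, Cov l₀ M n → ∃ i u, δ < |n ⬝ᵥ D (v i) u|)
  have h3 : ∀ v : Fin (J + 2) → W,
      (if ∃ u, c * δ < |f (fun i => D (v i.succ)) ⬝ᵥ D (v 0) u| then tup p K (J + 1) v else 0) ≤
      (if ¬ DmF D l₀ δ M v 0 then tup p K (J + 1) v else 0) +
        (if ∀ n : Fin c → ℝ, Cov l₀ M n → ∃ (i : Fin (J + 1)) (u : kk),
          δ < |n ⬝ᵥ D (v i.succ) u| then tup p K (J + 1) v else 0) := by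
    intro v
    have h0 := tup_nonneg hp0 K (J + 1) v
    by_cases h4 : ∃ u, (c : ℝ) * δ < |f (fun i => D (v i.succ)) ⬝ᵥ D (v 0) u|
    swap
    · rw [if_neg h4]
      split_ifs <;> linarith
    rw [if_pos h4]
    by_cases h5 : DmF D l₀ δ M v 0
    swap
    · rw [if_pos h5]
      split_ifs <;> linarith
    by_cases h6 : ∀ n : Fin c → ℝ, Cov l₀ M n → ∃ (i : Fin (J + 1)) (u : kk),
        δ < |n ⬝ᵥ D (v i.succ) u|
    · rw [if_pos h6]
      split_ifs <;> linarith
    exfalso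
    push Not at h6
    obtain ⟨n', h7, h8⟩ := h6
    have h9 := hf2 (fun i => D (v i.succ)) ⟨n', h7, h8⟩
    obtain ⟨u, hu⟩ := h4
    obtain ⟨σ, t, g1, g2, g3⟩ := h5 u
    have h10 := dom_le (fun i : Fin (J + 2) × kk => D (v i.1) i.2) l₀ hδ hM
      (hf1 fun i => D (v i.succ)) g2 g3 (by
        rintro ⟨i, u'⟩ ⟨k, hk⟩
        have hi : i ≠ 0 := by
          rintro rfl
          exact g1 k u' hk
        obtain ⟨i', rfl⟩ := Fin.exists_succ_eq_of_ne_zero hi
        exact h9 i' u')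
    linarith
  have h4 : Pb (tup p K (J + 1))
      (fun v => ∃ u, c * δ < |f (fun i => D (v i.succ)) ⬝ᵥ D (v 0) u|) ≤
      Pb (tup p K (J + 1)) (fun v => ¬ DmF D l₀ δ M v 0) +
        Pb (tup p K (J + 1)) (fun v => ∀ n : Fin c → ℝ, Cov l₀ M n →
          ∃ (i : Fin (J + 1)) (u : kk), δ < |n ⬝ᵥ D (v i.succ) u|) := by
    unfold Pb
    rw [← Finset.sum_add_distrib]
    refine Finset.sum_le_sum fun v _ => (h3 v).trans (le_of_eq ?_)
    by_cases h4 : DmF D l₀ δ M v 0
    · rw [if_neg (not_not.2 h4), if_neg (not_not.2 h4)]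
    · rw [if_pos h4, if_pos h4]
  have h5 : (c : ℝ) / (((J + 1 : ℕ) : ℝ) + 1) = c / (J + 2) := by
    push_cast
    ring
  rw [h5] at h1
  linarith

end Pool.QUAD70
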